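import Pool.Agent.J6H95.FJ.Quad

/-!
# Groups acting on trees with abelian or virtually cyclic edge groups and the Farrell-Jones conjecture

`C` is any class of groups with the closure properties `ClosedE C` which contains the metabelian groups
and satisfies `AcylF C`: a finitely generated group that acts on a tree without inversions, such that
for some `k` and `n` the pointwise stabilizers of the paths of length at least `k` have at most `n`
elements, is in `C` if the vertex stabilizers are in `C`. All this is known for the class of the groups
whose wreath products with finite groups satisfy the K- and L-theoretic Farrell-Jones conjecture with
coefficients (`AcylF` is a theorem of Knopf); this class also contains the groups `GL_m(K)`, if the field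
`K` is algebraic over `ℚ` or over a field `𝔽_p(t)` (Rüping).

Let `G` act on a tree. There is no condition on the quotient graph, edges may be inverted, and there is
no condition on finite edge groups. Let `P`, `Q` and `W` be `G`-invariant sets of vertices which satisfy
`ComV`, `CenV` and `VcV`, and suppose that all other vertices satisfy `FamV`. Then `G` is in `C`. Centralizers
and normalizers in `G_v` are denoted by `Cen` and `N`.

* `CenV`: the infinite edge groups `E` at `v` are abelian, the intersections of `E` with the infinite edge
  groups `E'` at `v` such that `Cen E' ≠ Cen E` have bounded finite orders, and `G_v` is linear over some
  field `k` such that all `GL_m(k)` are in `C`, or `N(A) / A` is in `C` for the double centralizer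
  `A = Cen(Cen(E))`.
* `ComV`: all edge groups at `v` are virtually cyclic, or the intersections of the infinite edge groups `E`
  at `v` with the infinite edge groups not commensurable with `E` have bounded finite orders; each
  infinite `E` embeds in some `ℚ^r`, and for all `x ≠ 1` in `E` there is a representation of `G_v` over some
  field for which no positive power of `x` is unipotent, or `x` is not in `[Cen(x^N), Cen(x^N)]` for
  `N > 0`. If `G_v` is linear over a field `k` such that all `GL_m(k)` are in `C`, then `E` may also be
  generated by one element `e` such that in characteristic zero, if a positive power of `e` is unipotent,
  then `e` has only one eigenvalue.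
* `FamV`: there is a `G`-equivariant family `𝓐` of subgroups `A` of `G_v` with `N(A) / A` in `C` and bounded
  finite intersections with the other members, such that each infinite edge group `E` at `v` is contained
  in a member `A` with `E ∩ [A ∩ ker f, A ∩ ker f] = 1` for a homomorphism `f` from `G` to a group in `C`
  (which is no condition if `A` is abelian).
* `VcV`: the infinite edge groups `E` at `v` belong to edges which lead to vertices in `W`, and `LinV` or
  `TrV` holds. `LinV`: `G_v` is linear over some field `k` such that all `GL_m(k)` are in `C`, and each infinite
  `E` is virtually cyclic and balanced (it contains an element `e` of infinite order such that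
  `g e^a g⁻¹ = e^b` with `g` in `G` and `a ≠ 0` is only possible for `b = ±a`) or generated by one element `e`
  as in `ComV`. `TrV`: `G_v` is in `C`, for all elements `z` of infinite order of the edge groups at `v` the
  quotient by `⟨z⟩` of the group of all `g` in `G_v` with `g z g⁻¹ = z` or `g z g⁻¹ = z⁻¹` is in `C`, and each
  infinite `E` is virtually cyclic and balanced, or generated by an element `e` such that no `e^j`, `j > 0`,
  is in the commutator subgroup of the centralizer of a power `e^N`, `N > 0`, in `G_v`.

*Examples.* (a) Uniform centralizers. Let the vertex groups be in `C`, and suppose for the infinite edge
groups `E` at `v` that each element of `G_v` which commutes with an element `x ≠ 1` of `E` commutes with all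
elements of `E`, and that `G_v` is linear as in `CenV`, or `N(A) / A` is in `C` for `A = Cen(Cen(E))`. Then
`CenV` holds (see `J6H95.FJ.uniform`). For instance let `E` be an abelian subgroup of a commutative
transitive group `G_v` (the centralizers of the nontrivial elements are abelian); then `A = Cen(E)` is a
maximal abelian subgroup, and `N(A) = A` if `G_v` is a CSA group. So the Farrell-Jones conjecture holds for
the fundamental groups of all graphs of groups with abelian edge groups, the vertex groups of which are
abelian groups, torsion-free hyperbolic groups, limit groups, toral relatively hyperbolic groups, and
commutative transitive groups which are linear over algebraic number fields. The edge groups may have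
arbitrary rank and arbitrary embeddings in the two vertex groups; for instance the edge groups `ℤ^n`
may be embedded on both sides as subgroups of different maximal abelian subgroups of larger rank.
If all vertex groups are abelian, this is the theorem of Gandini, Meinert and Rüping. The condition on
`x` also holds for cyclic edge groups, if `G_v` has unique roots (for instance torsion-free nilpotent
groups, bi-orderable groups and right-angled Artin groups).

(b) `FamV` contains the vertex groups with an abelian normal subgroup which contains the edge groups at
the vertex, if the quotient is in `C`, and torsion-free groups hyperbolic relative to groups `P_i` with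
abelian normal subgroups `A_i`, `P_i / A_i` in `C`, if each edge group at `v` is contained in a conjugate of
some `A_i` or is not parabolic and abelian.

(c) If all vertices are in `W`, the theorem is about virtually cyclic edge groups. It covers all graphs of
groups with vertex groups linear over fields which are algebraic over `𝔽_p(t)` and with cyclic edge
groups, and all graphs of groups with cyclic edge groups the vertex groups of which are linear over an
algebraic number field and neat (the eigenvalues of each element generate a torsion-free group; for
instance the principal congruence subgroups of level at least `3` of the groups `GL_n(ℤ)`). The cyclic
groups may be glued in any way, for instance with relations like `t e^2 t⁻¹ = e^3`, `e` an elementary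
matrix in `SL_n(ℤ)`.

The theorem on isolated edge groups of the starting library (`MP_b6f35e_al.IsolatedEdgeGroups`) requires
that infinite edge groups at a vertex are commensurable or have finite intersections, and that
`E ∩ [S, S] = 1`, `S` being the group of the elements of `G_v` that centralize a subgroup of finite index of
`E`, or a similar condition with the commensurator of `E` in `G`. So for example amalgamated products of
limit groups over `ℤ` and `ℤ^2` in the same maximal abelian subgroup `ℤ^3` are not covered, and the
condition fails for the unipotent elements of most linear groups, for instance for the elementary
matrices in `SL_n(ℤ)`, `n ≥ 3`.

Outline of the proof. Let `r` be the relation between the edges at a vertex `v` with infinite stabilizers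
given by commensurability of the edge groups for `v` in `P` or `W`, by equality of their centralizers for
`v` in `Q`, and by the members of `𝓐` which contain the edge groups for the other vertices. The cylinders
of the relation `r` and the vertices form a tree on which the finitely generated subgroups of `G` act
acylindrically, because only finitely many edges have to be considered for the bounds (`main_locr`). So
one has to treat the stabilizers `K` of the cylinders. A cylinder which meets `W` has all its vertices in
`W`, and commensurable virtually cyclic edge groups. In all other cases there are for each edge `(v, u)`
with stabilizer `E` homomorphisms `π` on a subgroup `S` of `G` which contains `K ∩ G_v` and `f` on `G` to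
groups in `C` such that `π` is trivial on the elements of `S` in the edge groups at `v` of the cylinder, and
`E ∩ [L, L] = 1` for `L = ker π ∩ ker f`. Now `π` extends to a homomorphism from `K` to the free product of a
group in `C` and a free group (`exists_hom`; it is given by a twisted holonomy along the paths of the
tree), and the criterion of the starting library (`N509.TK`) applies. For `CenV` the group `S` is the
normalizer of the double centralizer `A` of `E`; it contains all edge groups `E'` at `v` with the same
centralizer, and if `G_v` is linear, then `N(A) / A` is linear, because `N(A)` acts by conjugation on the
linear span of `Cen(A)` with kernel `Cen(Cen(A)) = A`. For `ComV` the modular homomorphism of the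
commensurator of `E` in `G_v` to `GL(E ⊗ ℚ)` is used (`exists_modQ`), or, if `e` is a matrix with one
eigenvalue, the action by conjugation on the matrices which commute with `e`. If the edge groups of a
cylinder in `W` are balanced, then `K` is the union of the subgroups which centralize or invert a power
`z` of `e`. Such a subgroup acts on the subtree of the fixed points of `z`, and its quotient by `⟨z⟩` acts
with finite edge groups; if the vertex group is linear, then the elements which centralize or invert
`z` act by conjugation on the matrices which commute with `z`, and the kernel is abelian and contains `z`.
-/

set_option autoImplicit false

namespace Pool.Agent.Results.MP_e40716_gt.AbelianEdgeGroups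

open Subgroup
open Pool.Agent.Y110.FJ (ClosedE)
open Pool.Agent.N509.TX (AcylF)
open Pool.Agent.J6H95.FJ

theorem result (C : ∀ (G : Type) [Group G], Prop) (hC : ClosedE C)
    (hM : ∀ (G : Type) [Group G], derivedSeries G 2 = ⊥ → C G) (hA : AcylF C)
    {G V : Type} [Group G] [MulAction G V] (T : SimpleGraph V) (hT : T.IsTree)
    (hact : ∀ (g : G) (u v : V), T.Adj u v → T.Adj (g • u) (g • v))
    (P Q W : Set V) (𝓐 : V → Set (Subgroup G))
    (hP : ∀ (g : G) (v : V), v ∈ P → g • v ∈ P) (hQ : ∀ (g : G) (v : V), v ∈ Q → g • v ∈ Q)
    (hW : ∀ (g : G) (v : V), v ∈ W → g • v ∈ W)
    (h𝓐 : ∀ (g : G) (v : V), ∀ A ∈ 𝓐 v, cj g A ∈ 𝓐 (g • v))
    (h1 : ∀ v ∈ P, (∀ m : ℕ, C (GL (Fin m) ℚ)) ∧ ComV C G T v)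
    (h2 : ∀ v ∈ Q, CenV C G T v)
    (h3 : ∀ v ∈ W, VcV C G T W v)
    (h4 : ∀ v, v ∉ P → v ∉ Q → v ∉ W → FamV C G T 𝓐 v) : C G :=
  quad hC hM hA hT hact hP hQ hW h𝓐 (fun v hv => (h1 v hv).1) (fun v hv => (h1 v hv).2) h2 h3 h4

end Pool.Agent.Results.MP_e40716_gt.AbelianEdgeGroups
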