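import Pool.Agent.J6H36.AR.Irr

/-!
# Artin groups and the Farrell–Jones conjecture

`C` is any class of groups with the closure properties `ClosedE C`, all of which are known for the
class of the groups that satisfy the K-theoretic Farrell–Jones conjecture (with coefficients and
finite wreath products), and which contains the Coxeter groups of finite rank (they are CAT(0) groups).

(1) If `H` and `Q` are in `C` and `Q` acts on a set `X`, then the semidirect product of the group of all
functions `X → H` of finite range with `Q` is in `C`.

(2) An Artin group of arbitrary rank is in `C` if and only if its standard parabolic subgroups on finite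
connected sets of generators without infinity labels are in `C`.

(3) The same for semidirect products of an Artin group of arbitrary rank with a group in `C` which acts
by automorphisms of the Coxeter matrix.

Outline of the proof. (1) By the extension criterion it suffices to realize a conjugation on finitely
many functions of finite range in a group in `C`; the orbits of one element are replaced by finitely
many sequences which are periodic near `∞` and `-∞`, and this case is reduced to finitely supported
functions. (2) Let `M s t = ∞`. Then the Artin group `A` is the amalgamated product of the parabolic
subgroups without `s` and without `t`. For a set `T` of generators let `rep w` be the shortest element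
of `w W_T` in the Coxeter group `W`. A generator `s` of `A` has `s rep w = rep (s w)` or
`s rep w = rep w t` with `t ∈ T`, and sending `s` to `s ∈ W` together with the function which is `t` at `w` in
the second case and `1` in the first one defines a homomorphism of `A` to the semidirect product of the
functions `W → A_T` of finite range with `W` (for the braid relations one uses that the words over `T`
obtained from reduced words are reduced, and Matsumoto's theorem). It is injective on `A_T`, and its
target is in `C` by (1). (3) The same homomorphism, for the extended Coxeter group, detects the finitely
generated subgroups of the kernel.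
-/

set_option autoImplicit false

namespace Pool.Agent.Results.MP_e40716_gt.ArtinGroups

open Pool.Agent.Y110.FJ (ClosedE)
open Pool.Agent.Helper741 (Artin subM)
open Pool.Agent.J6H36.AR

theorem result (C : ∀ (G : Type) [Group G], Prop) (hC : ClosedE C)
    (hcox : ∀ (S : Type) (_ : Finite S) (A : CoxeterMatrix S), C A.Group) :
    (∀ (X H Q : Type) [Group H] [Group Q] [MulAction Q X], C H → C Q → C (FW X H Q)) ∧
    (∀ (B : Type) (M : CoxeterMatrix B), C (Artin M) ↔
      ∀ K : Set B, K.Finite → (∀ i ∈ K, ∀ j ∈ K, M i j ≠ 0) → Conn M K → C (Artin (subM M K))) ∧
    (∀ (B Q : Type) [Group Q] [MulAction Q B] (M : CoxeterMatrix B)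
      (hM : ∀ (q : Q) (i j : B), M (q • i) (q • j) = M i j), C Q →
      (∀ K : Set B, K.Finite → (∀ i ∈ K, ∀ j ∈ K, M i j ≠ 0) → Conn M K → C (Artin (subM M K))) →
      C (Artin M ⋊[artAct hM] Q)) :=
  ⟨fun X H Q _ _ _ hH hQ => t_FW' C hC X H Q hH hQ,
    fun B M => ⟨fun h K hK h0 _ => (art_main hC hcox B M).1 h K hK h0,
      fun h => (art_main hC hcox B M).2 (conn_suff hC.base h)⟩,
    fun _ _ _ _ _ hM hQ h => semi_main hM hC hcox hQ (conn_suff hC.base h)⟩

end Pool.Agent.Results.MP_e40716_gt.ArtinGroups
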