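import Pool.Agent.J6H4.FJC.Fin2

/-!
# Groups acting on trees with compatible series of the vertex groups and the Farrell-Jones conjecture

`C` is any class of groups with the closure properties `ClosedE C` which contains the solvable groups
and satisfies `AcylF C`: a finitely generated group that acts on a tree without inversions, such that
for some `k` and `n` the pointwise stabilizers of the paths of length at least `k` have at most `n`
elements, is in `C` if the vertex stabilizers are in `C`. All this is known for the class of the groups
whose wreath products with finite groups satisfy the K- and L-theoretic Farrell-Jones conjecture with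
coefficients (`AcylF` is a theorem of Knopf, solvable groups are due to Wegner).

Let `G` act on a tree. There is no condition on the quotient graph, and edges may be inverted. The
stabilizer `E = G_v ∩ G_u` of an edge `vu` is called an edge group at `v` (`Es`). A *compatible family* (`CF`)
is a `G`-equivariant choice of subgroups `N_v ≤ G_v`, such that elements of `N_v` which fix a neighbour `u`
of `v` are in `N_u`. Such a family satisfies (A) (`TopA`), if `G_v / N_v` is in `C` and `E / (E ∩ N_v)` is
finite for all edge groups `E` at `v`, and (B) (`TopB`), if the quotient of `G` by the group generated by all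
`N_v` is in `C`. For instance the family of the vertex groups themselves satisfies (A) and (B).

**(1) The general theorem.** Suppose that for each finite set `Φ` of edges there are compatible families
`1 = M⁰ ≤ M¹ ≤ … ≤ Mⁿ` with `G_v / Mⁱ_v` in `C`, such that for the edges `vu` in `Φ` the group
`E ∩ ([Mⁱ⁺¹_v, Mⁱ⁺¹_v] Mⁱ_v)` is contained in `Mⁱ_v` or `E / (E ∩ Mⁱ_v)` is finite (for `i < n`), and
`E / (E ∩ Mⁿ_v)` is finite. Or suppose that there are such families for all edges at once, where the last
condition is replaced by (B) for `Mⁿ`. Then `G` is in `C`.

**(2) Descending series with abelian factors.** Let all `G_v` be in `C`, and let `D⁰ ≥ D¹ ≥ …` be compatible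
families with `[Dʲ_v, Dʲ_v] ≤ Dʲ⁺¹_v`, such that `D⁰` satisfies (A) or (B) and each edge group `E` at `v` meets
some `Dʲ_v` trivially. Then `G` is in `C`.

**(3) Retracts.** Let all `G_v` be in `C`, let `N` be a compatible family with (A) or (B), and suppose that for
all edge groups `E` at `v` the group `E ∩ N_v` is a retract of `N_v` and belongs to the class `PE`. Then `G` is in
`C`. Here `PE` is the smallest class of groups which contains the trivial groups, and which contains `E`
if it contains the commutator subgroup of `E` or, for some `k`, the intersection `I_k(E)` of the kernels of
all homomorphisms from `E` to the symmetric group of degree `k`. All virtually solvable groups are in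
`PE` (and for instance the wreath products of finite groups with solvable groups).

In particular the class `C` is closed under the fundamental groups of graphs of groups with virtually
solvable edge groups which are retracts of the vertex groups at both ends, for instance under amalgamated
products and HNN extensions along virtually solvable retracts. There is no condition on the
centralizers, normalizers or commensurators of the edge groups, which need not be finitely generated, and
distinct edge groups at a vertex may intersect in infinite subgroups.

**(4) Nilpotent groups.** Let `N` be a compatible family of nilpotent groups with (A), or with (B) and bounded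
class. Suppose that the upper central series are compatible (`UC`): elements of the `i`-th term of the series
of `N_v` which fix the neighbour `u` are in the `i`-th term of the series of `N_u`. Or suppose that the groups
`N_v` are torsion-free and that each element of `N_v` has a positive power which fixes `u`. Then `G` is in
`C`. This includes the generalized Baumslag-Solitar groups with torsion-free nilpotent vertex groups
of arbitrary, also infinite rank.

For abelian vertex groups this is the theorem of Gandini, Meinert and Rüping.

Outline of the proof. The group `R` generated by the members `M_v` of a compatible family meets `G_v` in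
`M_v` (a shortest product of elements of the `M_v` along a path in a transversal of the tree does not fix the
end point), the orbits of `R` are the vertices of a tree, and the stabilizers of `G / R` on this tree are the
groups `G_v / M_v`, and `E / (E ∩ M_v)` for the edges. So by induction `G / R` is in `C` for `M = M¹`, and the
local criterion of `MP_e40716_gt.AbelianEdgeGroups` applies to the homomorphism `G → G / R`, the kernel of
which meets `G_v` in `M_v` with `E ∩ [M_v, M_v] = 1`. For (2) one takes the families `Dʲ, …, D⁰`. For (3) the
universal property of the group `K` generated by the `N_v` is used: homomorphisms of the `N_s`, `s` in a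
transversal, which agree on the edge groups, extend to `K`. So the compositions of the retractions along
paths give retractions of `K` onto the groups `N_v`, and `F(K) ∩ N_v = F(N_v)`, `F(N_v) ∩ E = F(N_v ∩ E)` for
all functorial subgroups `F`. There is a functorial subgroup `F` with `F(N_v ∩ E) = 1`, such that the quotient
`G / F(K)` is in `C` if `G / K` is in `C`, because kernels which are abelian or locally finite are admissible; so
`G → G / F(K)` embeds `E`. For (4) one uses that torsion-free nilpotent groups have unique roots, so that
the upper central series of a subgroup which contains powers of all elements is induced by the one of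
the group.
-/

set_option autoImplicit false

namespace Pool.Agent.Results.MP_e40716_gt.CompatibleSeries

open Subgroup
open Pool.Agent.Y110.FJ (ClosedE)
open Pool.Agent.N509.TX (AcylF)
open Pool.Agent.N431.CE (Es)
open Pool.Agent.J6H4.FJC

/-- virtually solvable groups are in the class `PE` -/
theorem virtuallySolvable (E : Type) [Group E] (H : Subgroup E) (hH : H.index ≠ 0)
    (hs : Group.IsSolvable H) : PE E :=
  PE.vsolv H hH hs

theorem result (C : ∀ (G : Type) [Group G], Prop) (hC : ClosedE C)
    (hsol : ∀ (S : Type) [Group S], Group.IsSolvable S → C S) (hA : AcylF C)
    {G V : Type} [Group G] [MulAction G V] (T : SimpleGraph V) (hT : T.IsTree)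
    (hact : ∀ (g : G) (u v : V), T.Adj u v → T.Adj (g • u) (g • v)) :
    -- (1) the general theorem
    ((∀ Φ : Set (V × V), Φ.Finite → (∀ e ∈ Φ, T.Adj e.1 e.2) →
        ∃ (n : ℕ) (M : ℕ → V → Subgroup G), SerV C T Φ n M ∧
          ∀ v u, (v, u) ∈ Φ → (M n v).relIndex (Es G v u) ≠ 0) → C G) ∧
    (∀ (n : ℕ) (M : ℕ → V → Subgroup G), SerV C T {e : V × V | T.Adj e.1 e.2} n M →
      TopB C (M n) → C G) ∧
    -- (2) descending series with abelian factors
    ((∀ v : V, C ↥(MulAction.stabilizer G v)) → ∀ D : ℕ → V → Subgroup G, Des T D →
      TopA C T (D 0) ∨ TopB C (D 0) →
      (∀ v u : V, T.Adj v u → ∃ j, ∀ x ∈ Es G v u, x ∈ D j v → x = 1) → C G) ∧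
    -- (3) retracts
    ((∀ v : V, C ↥(MulAction.stabilizer G v)) → ∀ N : V → Subgroup G, CF T N →
      TopA C T N ∨ TopB C N →
      (∀ v u : V, T.Adj v u → Ret (N v) (Es G v u) ∧ PE ↥(N v ⊓ Es G v u)) → C G) ∧
    ((∀ v : V, C ↥(MulAction.stabilizer G v)) →
      (∀ v u : V, T.Adj v u → RetV G v u ∧
        (PE (Es G v u) ∨ ∃ H : Subgroup (Es G v u), H.index ≠ 0 ∧ Group.IsSolvable H)) → C G) ∧
    -- (4) nilpotent groups
    (∀ N : V → Subgroup G, CF T N → (∀ v, Group.IsNilpotent (N v)) →
      (UC T N ∨ (∀ v, Tf (N v)) ∧
        ∀ v u : V, T.Adj v u → ∀ x ∈ N v, ∃ k : ℕ, k ≠ 0 ∧ x ^ k • u = u) →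
      (TopA C T N ∨ TopB C N ∧ ∃ n : ℕ, ∀ v, Subgroup.upperCentralSeries (N v) n = ⊤) →
      C G) := by
  refine ⟨?_, ?_, ?_, ?_, ?_, ?_⟩
  · exact main_loc hC (fun S _ h => hsol S ⟨⟨2, h⟩⟩) hA hT hact
  · rintro n M hM ⟨P, _, f, hP, hf⟩
    exact main_glob hC (fun S _ h => hsol S ⟨⟨2, h⟩⟩) hA hT hact hM f hP hf
  · intro hV D hD hB hE
    exact des_final hC hsol hA hT hact hV hD hB hE
  · intro hV N hN hB hR
    exact ret_final hC hsol hA hT hact hV hN hB hR
  · intro hV hR
    refine ret_finalV hC hsol hA hT hact hV fun v u hvu => ⟨(hR v u hvu).1, ?_⟩
    rcases (hR v u hvu).2 with h | ⟨H, hH, hs⟩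
    · exact h
    · exact PE.vsolv H hH hs
  · intro N hN hnil h hB
    exact nil_final hC hsol hA hT hact hN hnil h hB

end Pool.Agent.Results.MP_e40716_gt.CompatibleSeries
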