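import Pool.Agent.J6H36.AR.VB

/-!
# Virtual Artin groups and the Farrell–Jones conjecture

`C` is any class of groups with the closure properties `ClosedE C`, all of which are known for the
class of the groups that satisfy the K-theoretic Farrell–Jones conjecture (with coefficients and
finite wreath products), and which contains the Coxeter groups of finite rank (they are CAT(0) groups).

`VA M` is the virtual Artin group of a Coxeter matrix `M` of any rank (Bellingeri, Paris, Thiel): it is
generated by the standard generators of the Artin group and of the Coxeter group of `M`, with the
relations of these groups and the mixed relations `u σ_i = σ_x u`, where `u` is the product of the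
alternating word of length `M i j - 1` in the `τ_i, τ_j` which ends with `τ_j`, and `x = i` if `M i j` is
even and `x = j` if it is odd. For type `A_n` this is the virtual braid group on `n + 1` strands.

(1) `VA M` is in `C` if and only if the Artin groups of the finite connected sets of roots without
infinity labels are in `C`.

(2) If the Coxeter form of `M` is positive semidefinite (spherical and affine types) and `C` contains the
Artin groups of spherical and affine type, then `VA M` is in `C`.

(3) If `C` contains the Artin groups of the affine types `Ã_{m-1}`, `m ≥ 3`, then it contains all virtual
braid groups.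

Outline of the proof. `VA M` is the semidirect product of the Artin group on the roots by the Coxeter
group; this uses that the groupoid of the simple roots is generated by dihedral moves. One applies the
theorem on semidirect products of Artin groups with groups of diagram automorphisms
(`ArtinGroups` for this problem). (2) The inner products of the roots of such a set `K` are those of the
simple roots of the Coxeter matrix of `K`. (3) The roots are the arcs `(a, b)`, `a ≠ b`, on `n + 1` points,
and a connected set of arcs without infinity labels is a path or a cycle.
-/

set_option autoImplicit false

namespace Pool.Agent.Results.MP_e40716_gt.VirtualArtinGroups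

open Pool.Agent.Y110.FJ (ClosedE)
open Pool.Agent.Helper741 (Artin subM)
open Pool.Agent.J6H36.AR

theorem result (C : ∀ (G : Type) [Group G], Prop) (hC : ClosedE C)
    (hcox : ∀ (S : Type) (_ : Finite S) (A : CoxeterMatrix S), C A.Group) :
    (∀ (B : Type) (M : CoxeterMatrix B), C (VA M) ↔
      ∀ K : Set (Phi M.toCoxeterSystem), K.Finite → (∀ i ∈ K, ∀ j ∈ K, rootM M i j ≠ 0) →
        Conn (rootM M) K → C (Artin (subM (rootM M) K))) ∧
    ((∀ (S : Type) (_ : Finite S) (N : CoxeterMatrix S), (∀ i j, N i j ≠ 0) →
        Conn N Set.univ → PSD N → C (Artin N)) →
      ∀ (B : Type) (M : CoxeterMatrix B), PSD M → C (VA M)) ∧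
    ((∀ m : ℕ, 3 ≤ m → C (Artin (cyc m))) → ∀ n : ℕ, C (VA (CoxeterMatrix.A n))) :=
  ⟨fun _ M => va_iff hC hcox M, fun h _ M hM => psd_main hC hcox h M hM,
    fun h n => vb_main hC hcox h n⟩

end Pool.Agent.Results.MP_e40716_gt.VirtualArtinGroups
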